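import Pool.Agent.N84.MD.BC
import Pool.Agent.N625.PT.C
import Pool.Agent.L7h50.AB.Out

/-!
# The equation `a p - b q = c` for all the `c` near the first digits of almost every real number

All the results for almost all `c` leave out an exceptional set at every scale. Here a sequence of random integers
`x_k < d ^ k` is given on one probability space, one for every number `k` of digits: for instance the integers formed by
the first `k` digits of a random real number `ξ`, in any base `d`. Almost surely, for all large `k` there are NO exceptions: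
the prediction of Hardy and Littlewood holds for the equations `a p - b q = c` for all the small `a`, `b` and all the `c`
near `c_k + κ x_k`, in all windows; and this for all `κ ≠ 0`, `ε > 0`, `A` and `W` at once. This applies

* to almost every real number `ξ` in `[0, 1)` (with respect to the measure of Lebesgue), in all bases `d` at once;
* to almost every point with respect to any measure for which the first `k` digits have exchangeable blocks: Bernoulli and
  Markov measures, for example the Cantor measure, or measures which are dominated by such measures up to a power of `k`.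

Definitions used. `Pool.Agent.L7h50.AB.Defs`: `Admissible`, `solutions`, `density`, `AsPredicted`, `AllNear` (see there).
Starting file `Pool.Agent.H560R3.GB.Defs` (in `density`): `C₂`: the twin prime constant `∏_{p > 2} (1 - 1 / (p - 1) ^ 2)`.

Method: random integers with exchangeable blocks of digits are from the starting files (`Pool.Agent.N625.PT`), and so is
the form of the lemma of Borel and Cantelli (`Pool.Agent.N84.MD.BC`). New here: the class of these distributions is stable
under the restriction to residue classes and the division by small integers, and the equation `a p - b q = c` is reduced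
to such quotients (`Pool.Agent.L7h50.AB`).
-/

set_option autoImplicit false

open Filter MeasureTheory Finset
open scoped ENNReal

namespace Pool.Agent.Results.MP_bf63dc_nt.AlmostEveryRealNumber

open Pool.Agent.L7h50.AB Pool.Agent.H560R3.GB

/-- The probability, for the distribution `μ` on the words of `k` digits (the integers `v < b ^ k`), that the word begins with
the `i` digits of `u < b ^ i`. -/
noncomputable def begins (b k : ℕ) (μ : ℕ → ℝ) (i u : ℕ) : ℝ := ∑ w ∈ range (b ^ (k - i)), μ (u * b ^ (k - i) + w)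

/-- `p` is a probability on the words of `k` digits in base `b`, read as integers `v < b ^ k`. There is another probability
`μ` with `p ≤ k ^ T μ` such that after every beginning `u` two different blocks `a`, `a'` of `L` digits can be exchanged:
`p (u a w) = r p (u a' w)` for all endings `w`, with a factor `r` between `η` and `1 / η` which does not depend on `w`; and
given the beginning `u`, each of the two blocks comes next with a probability of at least `η` in the distribution `μ`.
(For `T = 0` one has `μ = p`. For the uniform distribution on a set of words `r` is `1`.) -/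
structure Exchangeable (b L : ℕ) (η : ℝ) (T k : ℕ) (p : ℕ → ℝ) : Prop where
  nonneg : ∀ v, 0 ≤ p v
  sum : ∑ v ∈ range (b ^ k), p v = 1
  dominated : ∃ μ : ℕ → ℝ, (∀ v, 0 ≤ μ v) ∧ ∑ v ∈ range (b ^ k), μ v = 1 ∧ (∀ v < b ^ k, p v ≤ (k : ℝ) ^ T * μ v) ∧
    ∀ i u : ℕ, i + L ≤ k → u < b ^ i → ∃ (a a' : ℕ) (r : ℝ), a < a' ∧ a' < b ^ L ∧ η ≤ r ∧ η * r ≤ 1 ∧
      (∀ w < b ^ (k - (i + L)), p ((b ^ L * u + a) * b ^ (k - (i + L)) + w) = r * p ((b ^ L * u + a') * b ^ (k - (i + L)) + w)) ∧
      η * begins b k μ i u ≤ begins b k μ (i + L) (b ^ L * u + a) ∧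
      η * begins b k μ i u ≤ begins b k μ (i + L) (b ^ L * u + a')

lemma begins_sum (b k : ℕ) (μ : ℕ → ℝ) (i u : ℕ) (hi : i < k) :
    ∑ a ∈ range b, begins b k μ (i + 1) (b * u + a) = begins b k μ i u := by
  unfold begins
  obtain ⟨n, hn⟩ : ∃ n, k - i = n + 1 := ⟨k - i - 1, by omega⟩
  have h1 : k - (i + 1) = n := by omega
  rw [h1, hn, pow_succ, mul_comm (b ^ n) b, Pool.Agent.N625.PT.sum_blocks b (b ^ n)]
  apply sum_congr rfl
  intro a _
  apply sum_congr rfl
  intro w _
  congr 1
  ring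

lemma flex_of {b L T k : ℕ} {η : ℝ} {p : ℕ → ℝ} (hp : Exchangeable b L η T k p) : Pool.Agent.N625.PT.Flex b L η T k p := by
  obtain ⟨h0, h1, μ, m0, m1, m2, m3⟩ := hp
  have hT : (0 : ℝ) ≤ (k : ℝ) ^ T := by positivity
  have hb0 : ∀ i u, 0 ≤ begins b k μ i u := fun i u => sum_nonneg fun w _ => m0 _
  refine ⟨h0, h1, fun i u => (k : ℝ) ^ T * begins b k μ i u, fun i u => mul_nonneg hT (hb0 i u), ?_, ?_, ?_, ?_⟩
  · intro v hv
    refine (m2 v hv).trans (le_of_eq ?_)
    unfold begins
    simp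
  · intro i hi u _
    simp only
    rw [← mul_sum, begins_sum b k μ i u hi]
  · simp only
    have : begins b k μ 0 0 = 1 := by
      unfold begins
      simpa using m1
    rw [this, mul_one]
  · intro i u hi hu
    obtain ⟨a, a', r, q1, q2, q3, q4, q5, q6, q7⟩ := m3 i u hi hu
    refine ⟨a, a', r, q1, q2, q3, q4, q5, ?_, ?_⟩
    · simp only
      calc η * ((k : ℝ) ^ T * begins b k μ i u) = (k : ℝ) ^ T * (η * begins b k μ i u) := by ring
        _ ≤ _ := mul_le_mul_of_nonneg_left q6 hT
    · simp only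
      calc η * ((k : ℝ) ^ T * begins b k μ i u) = (k : ℝ) ^ T * (η * begins b k μ i u) := by ring
        _ ≤ _ := mul_le_mul_of_nonneg_left q7 hT

/-- the uniform distribution has exchangeable digits -/
theorem exch_unif (b : ℕ) (hb : 2 ≤ b) (k : ℕ) (p : ℕ → ℝ) (hp : ∀ v < b ^ k, p v = 1 / (b : ℝ) ^ k)
    (hp0 : ∀ v, 0 ≤ p v) : Exchangeable b 1 (1 / b) 0 k p := by
  have hb0 : (0 : ℝ) < b := by exact_mod_cast (by omega : 0 < b)
  have hbk : (0 : ℝ) < (b : ℝ) ^ k := by positivity
  have hsum : ∀ f : ℕ → ℝ, (∀ v < b ^ k, f v = 1 / (b : ℝ) ^ k) → ∑ v ∈ range (b ^ k), f v = 1 := by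
    intro f hf
    rw [sum_congr rfl fun v hv => hf v (mem_range.1 hv), sum_const, card_range, nsmul_eq_mul]
    push_cast
    field_simp
  refine ⟨hp0, hsum p hp, fun _ => 1 / (b : ℝ) ^ k, fun _ => by positivity, hsum _ fun _ _ => rfl, ?_, ?_⟩
  · intro v hv
    rw [hp v hv, pow_zero, one_mul]
  · intro i u hi hu
    obtain ⟨n, hn⟩ : ∃ n, k = i + 1 + n := ⟨k - (i + 1), by omega⟩
    have e1 : k - (i + 1) = n := by omega
    have e2 : k - i = n + 1 := by omega
    have hlt : ∀ a, a < b → ∀ w, w < b ^ n → (b ^ 1 * u + a) * b ^ n + w < b ^ k := by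
      intro a ha w hw
      have h1 : b ^ 1 * u + a + 1 ≤ b ^ (i + 1) := by
        rw [pow_one, pow_succ]
        nlinarith
      calc (b ^ 1 * u + a) * b ^ n + w < (b ^ 1 * u + a) * b ^ n + b ^ n := by omega
        _ = (b ^ 1 * u + a + 1) * b ^ n := by ring
        _ ≤ b ^ (i + 1) * b ^ n := Nat.mul_le_mul_right _ h1
        _ = b ^ k := by rw [hn, pow_add b (i + 1) n]
    have hbeg : ∀ j u', begins b k (fun _ => 1 / (b : ℝ) ^ k) j u' = (b : ℝ) ^ (k - j) * (1 / (b : ℝ) ^ k) := by
      intro j u'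
      unfold begins
      rw [sum_const, card_range, nsmul_eq_mul]
      push_cast
      rfl
    refine ⟨0, 1, 1, one_pos, by rw [pow_one]; omega, ?_, ?_, ?_, ?_, ?_⟩
    · rw [div_le_one hb0]
      exact_mod_cast (by omega : 1 ≤ b)
    · rw [mul_one, div_le_one hb0]
      exact_mod_cast (by omega : 1 ≤ b)
    · intro w hw
      rw [e1] at hw ⊢
      rw [hp _ (hlt 0 (by omega) w hw), hp _ (hlt 1 (by omega) w hw), one_mul]
    · rw [hbeg, hbeg, e1, e2, pow_succ]
      apply le_of_eq
      field_simp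
    · rw [hbeg, hbeg, e1, e2, pow_succ]
      apply le_of_eq
      field_simp

/-- For all integers `κ ≠ 0`, all `ε > 0`, `A`, `W`, and for all large `k`: the prediction is correct for all admissible
`a`, `b`, `c` with `a, b ≤ A` and `|c - (c_k + κ x_k)| ≤ log ^ W N`, `N = d ^ k`. -/
def Always (d : ℕ) (c : ℕ → ℤ) (x : ℕ → ℕ) : Prop :=
  ∀ (κ : ℤ) (ε : ℝ) (A W : ℕ), κ ≠ 0 → 0 < ε → ∀ᶠ k : ℕ in atTop, AllNear ε A W (d ^ k) (c k + κ * x k)

lemma allNear_mono {ε ε' : ℝ} {A W N : ℕ} {y : ℤ} (h : AllNear ε A W N y) (hε : ε ≤ ε') : AllNear ε' A W N y := by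
  intro a b c ha hb hc hadm M M' h1 h2 h3
  have h4 := h a b c ha hb hc hadm M M' h1 h2 h3
  refine h4.trans (mul_le_mul_of_nonneg_right hε ?_)
  have h5 : 0 ≤ density a b c := by
    rw [density_eq]
    exact dE_nonneg a b c
  have h6 : 0 ≤ (N : ℝ) / Real.log N ^ W := by
    apply div_nonneg (Nat.cast_nonneg _)
    exact pow_nonneg (Real.log_natCast_nonneg _) _
  apply mul_nonneg h5
  apply div_nonneg _ (sq_nonneg _)
  linarith

/-- **(1)** Let `x_k = x_k(ω) < d ^ k` be random integers on a probability space whose laws have exchangeable blocks of digits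
for all large `k`, and let `c_k` be integers with `|c_k| ≤ B d ^ k`. Then almost surely `Always d c x`: for all large `k` the
prediction of Hardy and Littlewood holds for all the equations `a p - b q = c` with `c` near `c_k + κ x_k`, in all windows.

**(2)** For almost every real number `ξ` in `[0, 1)` this holds in all bases `d ≥ 2` at once, with `x_k = [d ^ k ξ]`, for given
integers `c_k = c_d(k)` with `|c_d(k)| ≤ B_d d ^ k` (for instance `c_k = 0`). -/
theorem result :
    (∀ (d L : ℕ), 2 ≤ d → 1 ≤ L → ∀ η : ℝ, 0 < η → η ≤ 1 → ∀ (T B : ℕ) (c : ℕ → ℤ), (∀ k, |c k| ≤ B * (d : ℤ) ^ k) →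
      ∀ (Ω : Type) [MeasurableSpace Ω] (ν : Measure Ω) [IsProbabilityMeasure ν] (x : ℕ → Ω → ℕ), (∀ k ω, x k ω < d ^ k) →
      (∀ᶠ k : ℕ in atTop, Exchangeable d L η T k fun v => (ν {ω | x k ω = v}).toReal) →
        ∀ᵐ ω ∂ν, Always d c fun k => x k ω) ∧
    (∀ (B : ℕ → ℕ) (c : ℕ → ℕ → ℤ), (∀ d k, |c d k| ≤ B d * (d : ℤ) ^ k) →
      ∀ᵐ ξ : ℝ, 0 ≤ ξ → ξ < 1 → ∀ d : ℕ, 2 ≤ d → Always d (c d) fun k => ⌊(d : ℝ) ^ k * ξ⌋₊) := by
  classical
  have main : ∀ (d L : ℕ), 2 ≤ d → 1 ≤ L → ∀ η : ℝ, 0 < η → η ≤ 1 → ∀ (T B : ℕ) (c : ℕ → ℤ),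
      (∀ k, |c k| ≤ B * (d : ℤ) ^ k) →
      ∀ (Ω : Type) [MeasurableSpace Ω] (ν : Measure Ω) [IsProbabilityMeasure ν] (x : ℕ → Ω → ℕ), (∀ k ω, x k ω < d ^ k) →
      (∀ᶠ k : ℕ in atTop, Exchangeable d L η T k fun v => (ν {ω | x k ω = v}).toReal) →
        ∀ᵐ ω ∂ν, Always d c fun k => x k ω := by
    intro d L hd hL η hη0 hη1 T B c hc Ω _ ν _ x hx hlaw
    have key : ∀ (κ : ℤ) (n A W : ℕ), κ ≠ 0 → ∀ᵐ ω ∂ν, ∀ᶠ k : ℕ in atTop,
        AllNear (1 / ((n : ℝ) + 1)) A W (d ^ k) (c k + κ * x k ω) := by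
      intro κ n A W hκ
      obtain ⟨k₀, h0⟩ := cls_near (Pool.Agent.N625.PT.flex_clsV d L hd hL η hη0 hη1 T κ hκ) A B 2 W 0
        (1 / ((n : ℝ) + 1)) (by positivity)
      obtain ⟨k₁, h1⟩ := eventually_atTop.1 hlaw
      exact Pool.Agent.N84.MD.bc_nat ν (fun k => d ^ k) x hx
        (fun k v => AllNear (1 / ((n : ℝ) + 1)) A W (d ^ k) (c k + κ * v))
        ⟨max k₀ k₁, fun k hk => h0 k ((le_max_left _ _).trans hk) (d ^ k) le_rfl
          (by push_cast; rw [pow_zero, one_mul]) _ (flex_of (h1 k ((le_max_right _ _).trans hk))) (c k) (hc k) _ _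
          (fun y hy => hy)⟩
    have hall : ∀ᵐ ω ∂ν, ∀ (κ : ℤ) (n A W : ℕ), κ ≠ 0 → ∀ᶠ k : ℕ in atTop,
        AllNear (1 / ((n : ℝ) + 1)) A W (d ^ k) (c k + κ * x k ω) := by
      refine ae_all_iff.2 fun κ => ae_all_iff.2 fun n => ae_all_iff.2 fun A => ae_all_iff.2 fun W => ?_
      by_cases hκ : κ = 0
      · exact Filter.Eventually.of_forall fun ω h => absurd hκ h
      · filter_upwards [key κ n A W hκ] with ω hω _
        exact hω
    filter_upwards [hall] with ω hω κ ε A W hκ hε
    obtain ⟨n, hn⟩ := exists_nat_one_div_lt hε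
    filter_upwards [hω κ n A W hκ] with k hk
    exact allNear_mono hk hn.le
  refine ⟨main, fun B c hc => ?_⟩
  have each : ∀ d : ℕ, ∀ᵐ ξ : ℝ, 0 ≤ ξ → ξ < 1 → 2 ≤ d → Always d (c d) fun k => ⌊(d : ℝ) ^ k * ξ⌋₊ := by
    intro b
    by_cases hb : 2 ≤ b
    swap
    · exact Filter.Eventually.of_forall fun ξ _ _ h => absurd h hb
    have hb0 : (0 : ℝ) < b := by exact_mod_cast (by omega : 0 < b)
    have : IsProbabilityMeasure (volume.restrict (Set.Ico (0 : ℝ) 1)) :=
      ⟨by rw [Measure.restrict_apply_univ, Real.volume_Ico]; norm_num⟩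
    have hpos : ∀ k : ℕ, 0 < b ^ k := fun k => Nat.pow_pos (by omega)
    have h1 := main b 1 hb le_rfl (1 / b) (by positivity) (by
      rw [div_le_one hb0]
      exact_mod_cast (by omega : 1 ≤ b)) 0 (B b) (c b) (hc b) ℝ (volume.restrict (Set.Ico (0 : ℝ) 1))
      (fun k ξ => ⌊((b ^ k : ℕ) : ℝ) * ξ⌋₊ % b ^ k) (fun k ξ => Nat.mod_lt _ (hpos k))
      (Filter.Eventually.of_forall fun k => exch_unif b hb k _ (fun v hv => by
        show ((volume.restrict (Set.Ico (0 : ℝ) 1)) {ξ : ℝ | ⌊((b ^ k : ℕ) : ℝ) * ξ⌋₊ % b ^ k = v}).toReal = _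
        rw [Pool.Agent.N84.MD.unif (b ^ k) (hpos k) v hv, ENNReal.toReal_ofReal (by positivity)]
        push_cast
        rfl) (fun v => ENNReal.toReal_nonneg))
    rw [ae_restrict_iff' measurableSet_Ico] at h1
    filter_upwards [h1] with ξ hξ h2 h3 _
    have h4 := hξ ⟨h2, h3⟩
    have h5 : (fun k : ℕ => ⌊((b ^ k : ℕ) : ℝ) * ξ⌋₊ % b ^ k) = fun k : ℕ => ⌊(b : ℝ) ^ k * ξ⌋₊ := by
      funext k
      have hbk : (0 : ℝ) < (b : ℝ) ^ k := by positivity
      push_cast
      refine Nat.mod_eq_of_lt ?_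
      rw [Nat.floor_lt (by positivity)]
      push_cast
      nlinarith
    rw [h5] at h4
    exact h4
  filter_upwards [ae_all_iff.2 each] with ξ hξ h2 h3 d hd
  exact hξ d h2 h3 hd

end Pool.Agent.Results.MP_bf63dc_nt.AlmostEveryRealNumber
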