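import Pool.Agent.N193.PS.Conv
import Pool.Agent.L7h50.AB.Out

/-!
# The equation `a p - b q = c` for all the `c` near the values of functions of non-integral index

Definitions used. `Pool.Agent.L7h50.AB.Defs`: `Admissible`, `solutions`, `density`, `AsPredicted`, `AllNear` (see there).
Starting file `Pool.Agent.H560R3.GB.Defs` (in `density`): `C₂`: the twin prime constant `∏_{p > 2} (1 - 1 / (p - 1) ^ 2)`.
From Mathlib: `ContDiffAt ℝ ⊤`: infinitely differentiable at a point; `iteratedDeriv m f`: the derivative of order `m`;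
`⌊y⌋₊`: the integer part of `y`, and `0` for `y < 0`.

Method: the characteristic function of the integer part of `f n` is small at all frequencies which are not close to
integers, and the values are not concentrated on short intervals (starting files `Pool.Agent.N193.PS`). New here: the
class of these distributions is stable under the restriction to residue classes and the division by small integers,
and the equation `a p - b q = c` is reduced to such quotients (`Pool.Agent.L7h50.AB`); the main terms are computed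
with sieve weights in all the residue classes modulo `a ^ 2`.
-/

set_option autoImplicit false

namespace Pool.Agent.Results.MP_bf63dc_nt.NonIntegralOrderConstants

open Finset Filter Pool.Agent.L7h50.AB

/-- `f` is smoothly varying of index `r`: it is infinitely differentiable and positive for large arguments, and
`t ^ m f⁽ᵐ⁾(t) / f(t) → r (r - 1) ... (r - m + 1)` for every `m`. -/
def SmoothlyVarying (r : ℝ) (f : ℝ → ℝ) : Prop :=
  (∃ t₀ : ℝ, ∀ t > t₀, ContDiffAt ℝ ((⊤ : ℕ∞) : WithTop ℕ∞) f t ∧ 0 < f t) ∧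
  ∀ m : ℕ, Tendsto (fun t => t ^ m * iteratedDeriv m f t / f t) atTop (nhds (∏ i ∈ range m, (r - i)))

open Pool.Agent.N193.PS

open Classical in
/-- **(1)** Let `f` be smoothly varying of an index `r > 0` which is not an integer, and let `κ ≠ 0`, `ε > 0`, `A`, `B`, `U`,
`W` and `e` be fixed. Let `N` be large, let `x` be such that `f n ≤ N` for the integers `1 ≤ n ≤ x` and
`N ≤ f x log ^ e N`, and let `|c₀| ≤ B N`. Then all the integers `1 ≤ n ≤ x`, with at most `x / log ^ U N` exceptions, have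
the following property: for all integers `a, b, c` as in the problem with `a, b ≤ A` and
`|c - (c₀ + κ ⌊f n⌋)| ≤ log ^ W N`, and for all windows `M < q ≤ M'` with `M' - M ≥ N / log ^ W N`, `M' ≤ N log ^ W N`
(and `b M + c ≥ 0` if `c < 0`), the number of the prime solutions of `a p - b q = c` with `M < q ≤ M'` is between
`1 - ε` and `1 + ε` times the prediction of Hardy and Littlewood.

**(2)** Part (1) applies to all the functions `f t = ∑ a z t ^ z.1 (log t) ^ z.2` (finite sums) with a leading term `z₀`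
whose coefficient is positive and whose exponent `r = z₀.1` is positive and not an integer; for example to `n ^ r`. -/
theorem result :
    (∀ (r : ℝ) (f : ℝ → ℝ), 0 < r → (∀ m : ℕ, r ≠ m) → SmoothlyVarying r f →
      ∀ (κ : ℤ), κ ≠ 0 → ∀ (ε : ℝ), 0 < ε → ∀ (A B U W e : ℕ), ∃ N₀ : ℕ, ∀ N : ℕ, N₀ ≤ N → ∀ x : ℕ,
      (∀ n ∈ Icc 1 x, f n ≤ N) → (N : ℝ) ≤ Real.log N ^ e * f x → ∀ c₀ : ℤ, |c₀| ≤ B * N →
        (((Icc 1 x).filter fun n : ℕ => ¬ AllNear ε A W N (c₀ + κ * (⌊f n⌋₊ : ℕ))).card : ℝ) ≤ x / Real.log N ^ U) ∧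
    (∀ (F : Finset (ℝ × ℝ)) (a : ℝ × ℝ → ℝ) (z₀ : ℝ × ℝ), z₀ ∈ F → 0 < a z₀ →
      (∀ z ∈ F, z ≠ z₀ → z.1 < z₀.1 ∨ z.1 = z₀.1 ∧ z.2 < z₀.2) →
      SmoothlyVarying z₀.1 (fun t => ∑ z ∈ F, a z * t ^ z.1 * Real.log t ^ z.2)) := by
  refine ⟨fun r f hc hn hf κ hκ ε hε A B U W e => ?_, fun F a z₀ h1 h2 h3 => gp_sv F a z₀ h1 h2 h3⟩
  have hsv := sv_of r hc hn f hf
  obtain ⟨k₀, h0⟩ := cls_near (hsv.clsV (e + 1) κ hκ) A B (U + 1) W 1 ε hε
  refine ⟨2 ^ k₀ + 8, fun N hN x hup hlow c₀ hc₀ => ?_⟩
  rcases Nat.eq_zero_or_pos x with rfl | hx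
  · simp
  have hk2 : 0 < 2 ^ k₀ := by positivity
  have hN4 : 4 ≤ N := by omega
  have hNk : N ≤ 2 ^ dg N := (lt_dg N).le
  obtain ⟨hval, hsize⟩ := conv (fun m => iteratedDeriv m f) e N x hN4
    (by simpa only [iteratedDeriv_zero] using hup) (by simpa only [iteratedDeriv_zero] using hlow)
  obtain ⟨Q, hQ⟩ : ∃ Q : ℤ → Prop, Q = fun y => AllNear ε A W N y := ⟨_, rfl⟩
  have h2N : ((2 ^ dg N : ℕ) : ℝ) ≤ 2 * N := by exact_mod_cast dg_le N (by omega)
  have hdg : k₀ ≤ dg N := dg_large k₀ N (by omega)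
  have hdg2 : (2 : ℝ) ≤ dg N := by
    have : 2 ≤ dg N := by
      by_contra hcon
      have h1 : 2 ^ dg N ≤ 2 ^ 1 := Nat.pow_le_pow_right (by norm_num) (by omega)
      omega
    exact_mod_cast this
  have hN0 : (0 : ℝ) < N := by exact_mod_cast (by omega : 0 < N)
  have h1 := count_of (e + 1) (dg N) x hx hval hsize (fun v => Q (c₀ + κ * (v : ℕ))) (1 / (dg N : ℝ) ^ (U + 1))
    (fun p hp => h0 (dg N) hdg N hNk (by
        push_cast at h2N ⊢
        rw [pow_one]
        refine h2N.trans ?_
        exact mul_le_mul_of_nonneg_right hdg2 hN0.le) p hp c₀ (by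
        refine hc₀.trans (mul_le_mul_of_nonneg_left ?_ (Nat.cast_nonneg _))
        exact_mod_cast hNk) Q _ (fun y hy => by rw [hQ]; exact hy))
  refine le_trans ?_ (h1.trans (scale_x N U x hN4))
  apply Nat.cast_le.2
  apply card_le_card
  intro n hn'
  rw [mem_filter] at hn' ⊢
  refine ⟨hn'.1, fun hcon => hn'.2 ?_⟩
  rw [val_iter, hQ] at hcon
  exact hcon

end Pool.Agent.Results.MP_bf63dc_nt.NonIntegralOrderConstants
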