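import Mathlib
import Pool.Agent.L7h28.UM.Final3

/-!
MP_bf63dc_nt (prime solutions of `a p - b q = c`), partial result: every set of at least `K log X` positive
integers up to `X` which are coprime to `c` contains `r` elements such that for any two of them, `a` and `b`,
the equation `a p - b q = c (a - b)` has a solution in primes at most `X ^ A`; the primes can be chosen
simultaneously for the `r` elements, in at least `X` ways.
-/

set_option autoImplicit false

open Finset Filter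

namespace Pool.Agent.Results.MP_bf63dc_nt.RatiosOfEverySet

open Classical in
/-- The vectors `(P a)`, `a ∈ T`, of primes at most `Y` with `a * P b - b * P a = c * (a - b)` for all
`a, b ∈ T`. -/
noncomputable def Vectors (T : Finset ℕ) (c : ℤ) (Y : ℕ) : Finset (T → ℕ) :=
  (Fintype.piFinset fun _ : T => Icc 1 Y).filter (fun P => (∀ a, (P a).Prime) ∧
    ∀ a b : T, ((a : ℕ) : ℤ) * P b - ((b : ℕ) : ℤ) * P a = c * (((a : ℕ) : ℤ) - ((b : ℕ) : ℤ)))

theorem log_le (X : ℕ) (hX : 3 ≤ X) : ((Nat.log 2 X + 1 : ℕ) : ℝ) ≤ 3 * Real.log X := by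
  have hX3 : (3 : ℝ) ≤ X := by exact_mod_cast hX
  have h1 : (2 : ℝ) ^ (Nat.log 2 X) ≤ X := by
    have := Nat.pow_log_le_self 2 (by omega : X ≠ 0)
    exact_mod_cast this
  have h2 : (Nat.log 2 X : ℝ) * Real.log 2 ≤ Real.log X := by
    rw [← Real.log_pow]
    exact Real.log_le_log (by positivity) h1
  have h3 := Real.log_two_gt_d9
  have h4 : 1 ≤ Real.log X := by
    rw [Real.le_log_iff_exp_le (by linarith)]
    have := Real.exp_one_lt_d9
    linarith
  have h5 : (0 : ℝ) ≤ Nat.log 2 X := Nat.cast_nonneg _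
  push_cast
  nlinarith

/-- For an absolute exponent `A`: for every `r ≥ 1` there is `K` such that for all large `X`, all nonzero
integers `c` with `|c| ≤ X` and all sets `S` of at least `K * log X` positive integers `a ≤ X` coprime to `c`,
there are `r` elements of `S` such that at least `X` vectors of primes `P a ≤ X ^ A`, indexed by these
elements `a`, satisfy `a * P b - b * P a = c * (a - b)` for all `a` and `b`. -/
theorem result : ∃ A : ℕ, ∀ r : ℕ, 1 ≤ r → ∃ K : ℕ, ∀ᶠ X : ℕ in atTop, ∀ c : ℤ, c ≠ 0 → |c| ≤ X →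
    ∀ S : Finset ℕ, (∀ a ∈ S, 1 ≤ a ∧ a ≤ X ∧ IsCoprime (a : ℤ) c) → (K : ℝ) * Real.log X ≤ S.card →
    ∃ T ⊆ S, T.card = r ∧ X ≤ (Vectors T c (X ^ A)).card := by
  classical
  obtain ⟨A0, q, hq2, _, hA, _⟩ := Pool.Agent.L7h28.UM.uniform
  refine ⟨3 * A0 + 3, fun r hr => ?_⟩
  obtain ⟨K0, M, δ, hδ, hrM, hev⟩ := Pool.Agent.L7h28.UM.prop_of hA r
  refine ⟨3 * M + 1, ?_⟩
  have ht : Tendsto (fun X : ℕ => X ^ 3) atTop atTop := tendsto_pow_atTop (by norm_num)
  have hlog := Pool.Agent.L7h28.UM.evPow K0 (1 / 2) (1 / δ) (by norm_num)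
  have hlog2 : ∀ᶠ X : ℕ in atTop, ∀ N : ℕ, X ≤ N → 1 / δ * (Real.log N) ^ K0 ≤ (N : ℝ) ^ (1 / 2 : ℝ) := by
    obtain ⟨z0, hz0⟩ := eventually_atTop.1 hlog
    filter_upwards [eventually_ge_atTop ⌈z0⌉₊] with X hX
    intro N hN
    apply hz0
    exact (Nat.le_ceil z0).trans (by exact_mod_cast hX.trans hN)
  filter_upwards [ht.eventually hev, hlog2, eventually_ge_atTop 3] with X hX hXlog hX3
  intro c hc hcX S hS hScard
  have hX3r : (3 : ℝ) ≤ X := by exact_mod_cast hX3
  have hX1 : 1 ≤ X := by omega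
  obtain ⟨Y, hY⟩ : ∃ Y : ℕ, Y = X ^ 3 := ⟨_, rfl⟩
  rw [← hY] at hX
  obtain ⟨l, hl⟩ : ∃ l : ℕ, l = (q Y).minFac := ⟨_, rfl⟩
  have hlp : l.Prime := by
    rw [hl]
    exact Nat.minFac_prime (by have := hq2 Y; omega)
  have hlq : l ∣ q Y := hl ▸ Nat.minFac_dvd _
  have := Fact.mk hlp
  -- the pigeonhole principle for the valuations
  have hmaps : ∀ a ∈ S, padicValNat l a ∈ range (Nat.log 2 X + 1) := by
    intro a ha
    rw [mem_range]
    have h1 := (hS a ha).1
    have h2 : padicValNat l a ≤ Nat.log l a := padicValNat_le_nat_log a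
    have h3 : Nat.log l a ≤ Nat.log 2 a := Nat.log_anti_left (by norm_num) hlp.two_le
    have h4 : Nat.log 2 a ≤ Nat.log 2 X := Nat.log_mono_right (hS a ha).2.1
    omega
  have hlogX := log_le X hX3
  have hlogpos : 0 < Real.log X := Real.log_pos (by linarith)
  obtain ⟨v, _, hv⟩ := exists_lt_card_fiber_of_mul_lt_card_of_maps_to hmaps (n := M) (by
    rw [card_range]
    have h1 : (((Nat.log 2 X + 1) * M : ℕ) : ℝ) < S.card := by
      push_cast at hScard hlogX ⊢
      have h2 : ((Nat.log 2 X : ℝ) + 1) * M ≤ (3 * Real.log X) * M :=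
        mul_le_mul_of_nonneg_right hlogX (Nat.cast_nonneg _)
      nlinarith
    exact_mod_cast h1)
  obtain ⟨F, hF⟩ : ∃ F : Finset ℕ, F = S.filter (fun a => padicValNat l a = v) := ⟨_, rfl⟩
  rw [← hF] at hv
  obtain ⟨g, hg⟩ : ∃ g : ℕ, g = l ^ v := ⟨_, rfl⟩
  have hg0 : 0 < g := hg ▸ Nat.pow_pos hlp.pos
  have hFg : ∀ a ∈ F, ∃ a' : ℕ, a = a' * g ∧ 1 ≤ a' ∧ a' ≤ X ∧ ¬ l ∣ a' ∧ IsCoprime (a' : ℤ) c := by
    intro a ha
    rw [hF, mem_filter] at ha
    obtain ⟨h1, h2, h3⟩ := hS a ha.1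
    have hga : g ∣ a := by
      rw [hg, ← ha.2]
      exact pow_padicValNat_dvd
    obtain ⟨a', ha'⟩ := hga
    have ha0 : a' ≠ 0 := by
      rintro rfl
      omega
    refine ⟨a', by rw [ha', mul_comm], by omega, ?_, ?_, ?_⟩
    · calc a' = 1 * a' := (one_mul _).symm
        _ ≤ g * a' := Nat.mul_le_mul_right _ hg0
        _ = a := ha'.symm
        _ ≤ X := h2
    · rintro ⟨m, hm⟩
      have h5 : l ^ (v + 1) ∣ a := ⟨m, by rw [ha', hm, hg, pow_succ]; ring⟩
      rw [padicValNat_dvd_iff_le (by omega)] at h5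
      omega
    · refine IsCoprime.of_isCoprime_of_dvd_left h3 ?_
      rw [ha']
      push_cast
      exact dvd_mul_left _ _
  -- the forms
  obtain ⟨cf, hcf⟩ : ∃ cf : ℕ → ℕ, cf = fun a' : ℕ => ((a' : ℤ) * |c| + c).toNat := ⟨_, rfl⟩
  have hcfz : ∀ a' : ℕ, 1 ≤ a' → ((cf a' : ℕ) : ℤ) = (a' : ℤ) * |c| + c := by
    intro a' ha'
    rw [hcf]
    apply Int.toNat_of_nonneg
    have h1 : (1 : ℤ) ≤ a' := by exact_mod_cast ha'
    have h2 := abs_nonneg c
    have h3 := neg_abs_le c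
    nlinarith
  obtain ⟨G, hG⟩ : ∃ G : Finset (ℕ × ℕ), G = F.image (fun a => (a / g, cf (a / g))) := ⟨_, rfl⟩
  have hGmem : ∀ w ∈ G, w.1 * g ∈ F ∧ w.2 = cf w.1 ∧ 1 ≤ w.1 ∧ w.1 ≤ X ∧ ¬ l ∣ w.1 ∧ IsCoprime (w.1 : ℤ) c := by
    intro w hw
    rw [hG, mem_image] at hw
    obtain ⟨a, ha, rfl⟩ := hw
    obtain ⟨a', h1, h2, h3, h4, h5⟩ := hFg a ha
    have h6 : a / g = a' := by rw [h1, Nat.mul_div_cancel _ hg0]
    refine ⟨?_, rfl, ?_, ?_, ?_, ?_⟩
    · simp only [h6]
      exact h1 ▸ ha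
    · simp only [h6]
      exact h2
    · simp only [h6]
      exact h3
    · simp only [h6]
      exact h4
    · simp only [h6]
      exact h5
  have hGcard : M ≤ G.card := by
    have h1 : G.card = F.card := by
      rw [hG]
      apply card_image_of_injOn
      intro a ha b hb hab
      rw [mem_coe] at ha hb
      obtain ⟨a', h1, _⟩ := hFg a ha
      obtain ⟨b', h2, _⟩ := hFg b hb
      have h3 := (Prod.ext_iff.1 hab).1
      simp only at h3
      rw [h1, h2, Nat.mul_div_cancel _ hg0, Nat.mul_div_cancel _ hg0] at h3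
      rw [h1, h2, h3]
    rw [h1]
    exact hv.le
  have hcX' : c.natAbs ≤ X := by
    have : ((c.natAbs : ℕ) : ℤ) ≤ X := by rw [Int.natCast_natAbs]; exact hcX
    exact_mod_cast this
  have hcfle : ∀ a' : ℕ, 1 ≤ a' → a' ≤ X → cf a' ≤ X * X + X := by
    intro a' h1 h2
    have h3 := hcfz a' h1
    have h4 : ((cf a' : ℕ) : ℤ) ≤ ((X * X + X : ℕ) : ℤ) := by
      rw [h3]
      push_cast
      have h5 : (a' : ℤ) * |c| ≤ X * X := mul_le_mul (by exact_mod_cast h2) hcX (abs_nonneg _) (by positivity)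
      have h6 := le_abs_self c
      linarith
    exact_mod_cast h4
  have hXY : X * X + X ≤ Y := by
    rw [hY]
    calc X * X + X ≤ X * X + X * X := by nlinarith
      _ ≤ X * X * X := by nlinarith
      _ = X ^ 3 := by ring
  have hXleY : X ≤ Y := by nlinarith
  obtain ⟨H, hHG, hHc, N, hYN, hNA, hcount⟩ := hX G (by
    intro w hw
    obtain ⟨h1, h2, h3, h4, h5, h6⟩ := hGmem w hw
    refine ⟨h3, h4.trans hXleY, ?_, ?_, fun hd => h5 (hlq.trans hd)⟩
    · rw [h2]
      exact (hcfle _ h3 h4).trans hXY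
    · rw [h2]
      rw [← Nat.isCoprime_iff_coprime, hcfz _ h3]
      have h7 : IsCoprime (w.1 : ℤ) (c + (w.1 : ℤ) * |c|) := IsCoprime.add_mul_left_right h6 _
      rw [add_comm] at h7
      exact h7) hGcard
  have hinj : Set.InjOn (fun w : ℕ × ℕ => w.1 * g) (H : Set (ℕ × ℕ)) := by
    intro w hw w' hw' he
    have h1 := (hGmem w (hHG hw)).2.1
    have h2 := (hGmem w' (hHG hw')).2.1
    have h3 : w.1 = w'.1 := Nat.eq_of_mul_eq_mul_right hg0 he
    exact Prod.ext h3 (by rw [h1, h2, h3])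
  refine ⟨H.image (fun w => w.1 * g), ?_, ?_, ?_⟩
  · intro a ha
    rw [mem_image] at ha
    obtain ⟨w, hw, rfl⟩ := ha
    have := (hGmem w (hHG hw)).1
    rw [hF, mem_filter] at this
    exact this.1
  · rw [card_image_of_injOn hinj, hHc]
  · -- the count
    have hN3 : (3 : ℝ) ≤ N := by
      have : X ≤ N := hXleY.trans hYN
      have : (X : ℝ) ≤ N := by exact_mod_cast this
      linarith
    have hNlog : 0 < Real.log N := Real.log_pos (by linarith)
    obtain ⟨GN, hGN⟩ : ∃ GN : Finset ℕ, GN = (Icc 1 N).filter (fun n : ℕ => N ≤ 6 * n ∧ ∀ w ∈ H, (w.1 * n + w.2).Prime) :=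
      ⟨_, rfl⟩
    rw [← hGN] at hcount
    have hXGN : X ≤ GN.card := by
      have h1 := hXlog N (hXleY.trans hYN)
      have h2 : (N : ℝ) ^ (1 / 2 : ℝ) ≤ δ * (N / (Real.log N) ^ K0) := by
        have h3 : (Real.log N) ^ K0 ≤ δ * (N : ℝ) ^ (1 / 2 : ℝ) := by
          have := mul_le_mul_of_nonneg_left h1 hδ.le
          calc (Real.log N) ^ K0 = δ * (1 / δ * (Real.log N) ^ K0) := by field_simp
            _ ≤ _ := this
        rw [← mul_div_assoc, le_div_iff₀ (by positivity)]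
        have h4 : (0 : ℝ) ≤ (N : ℝ) ^ (1 / 2 : ℝ) := by positivity
        calc (N : ℝ) ^ (1 / 2 : ℝ) * (Real.log N) ^ K0 ≤ (N : ℝ) ^ (1 / 2 : ℝ) * (δ * (N : ℝ) ^ (1 / 2 : ℝ)) :=
              mul_le_mul_of_nonneg_left h3 h4
          _ = δ * ((N : ℝ) ^ (1 / 2 : ℝ) * (N : ℝ) ^ (1 / 2 : ℝ)) := by ring
          _ = δ * N := by
              rw [← Real.rpow_add (by linarith)]
              norm_num
      have h5 : (X : ℝ) ≤ (N : ℝ) ^ (1 / 2 : ℝ) := by
        have h6 : (X : ℝ) ^ 2 ≤ N := by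
          have h7 : X ^ 2 ≤ N := by nlinarith
          exact_mod_cast h7
        calc (X : ℝ) = ((X : ℝ) ^ 2) ^ (1 / 2 : ℝ) := by
              rw [← Real.rpow_natCast, ← Real.rpow_mul (by linarith)]
              norm_num
          _ ≤ _ := Real.rpow_le_rpow (by positivity) h6 (by norm_num)
      have h8 : (X : ℝ) ≤ GN.card := (h5.trans h2).trans hcount
      exact_mod_cast h8
    refine hXGN.trans ?_
    obtain ⟨T, hT⟩ : ∃ T : Finset ℕ, T = H.image (fun w => w.1 * g) := ⟨_, rfl⟩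
    rw [← hT]
    have hTmem : ∀ a ∈ T, ∃ w ∈ H, a = w.1 * g ∧ a / g = w.1 ∧ w.2 = cf w.1 ∧ 1 ≤ w.1 ∧ w.1 ≤ X := by
      intro a ha
      rw [hT, mem_image] at ha
      obtain ⟨w, hw, rfl⟩ := ha
      have h1 := hGmem w (hHG hw)
      exact ⟨w, hw, rfl, Nat.mul_div_cancel _ hg0, h1.2.1, h1.2.2.1, h1.2.2.2.1⟩
    apply card_le_card_of_injOn (fun n => (fun a : T => ((a : ℕ) / g) * n + cf ((a : ℕ) / g)))
    · intro n hn
      rw [mem_coe, hGN, mem_filter, mem_Icc] at hn
      unfold Vectors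
      rw [mem_coe, mem_filter, Fintype.mem_piFinset]
      have hprime : ∀ a : T, (((a : ℕ) / g) * n + cf ((a : ℕ) / g)).Prime := by
        intro a
        obtain ⟨w, hw, h1, h2, h3, _⟩ := hTmem a a.2
        rw [h2, ← h3]
        exact hn.2.2 w hw
      refine ⟨fun a => ?_, hprime, ?_⟩
      · rw [mem_Icc]
        refine ⟨(hprime a).one_lt.le, ?_⟩
        obtain ⟨w, hw, h1, h2, h3, h4, h5⟩ := hTmem a a.2
        beta_reduce
        rw [h2]
        have h6 : n ≤ X ^ (3 * A0) := by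
          calc n ≤ N := hn.1.2
            _ ≤ Y ^ A0 := hNA
            _ = X ^ (3 * A0) := by rw [hY, ← pow_mul]
        have h7 := hcfle w.1 h4 h5
        have h8 : 1 ≤ X ^ (3 * A0) := Nat.one_le_pow _ _ (by omega)
        calc w.1 * n + cf w.1 ≤ X * X ^ (3 * A0) + (X * X + X) := Nat.add_le_add (Nat.mul_le_mul h5 h6) h7
          _ ≤ X * X ^ (3 * A0) + (X * X + X) * X ^ (3 * A0) := by
              apply Nat.add_le_add_left
              exact Nat.le_mul_of_pos_right _ (by omega)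
          _ = (X * X + 2 * X) * X ^ (3 * A0) := by ring
          _ ≤ X ^ 3 * X ^ (3 * A0) := by
              apply Nat.mul_le_mul_right
              nlinarith
          _ = X ^ (3 * A0 + 3) := by ring
      · intro a b
        obtain ⟨w, hw, h1, h2, h3, h4, h5⟩ := hTmem a a.2
        obtain ⟨w', hw', h1', h2', h3', h4', h5'⟩ := hTmem b b.2
        beta_reduce
        rw [h2, h2', h1, h1']
        push_cast
        rw [hcfz _ h4, hcfz _ h4']
        ring
    · intro n _ m _ hnm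
      have hTne : T.Nonempty := by
        rw [hT]
        apply Finset.Nonempty.image
        rw [← card_pos, hHc]
        omega
      obtain ⟨a, ha⟩ := hTne
      have h1 := congrFun hnm ⟨a, ha⟩
      simp only at h1
      obtain ⟨w, hw, h2, h3, h4, h5, h6⟩ := hTmem a ha
      rw [h3] at h1
      have h7 : w.1 * n = w.1 * m := by omega
      exact Nat.eq_of_mul_eq_mul_left (by omega) h7

end Pool.Agent.Results.MP_bf63dc_nt.RatiosOfEverySet
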