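import Pool.Agent.N384.MQ.Main
import Pool.Agent.N384.MQ.Ex
import Pool.Agent.N384.MQ.Quot
import Pool.Agent.L7h50.AB.Out

/-!
# The equation `a p - b q = c` for all the `c` near residues with small Fourier coefficients

Definitions used. `Pool.Agent.L7h50.AB.Defs`: `Admissible`, `solutions`, `density`, `AsPredicted`, `AllNear` (see there).
Starting file `Pool.Agent.H560R3.GB.Defs` (in `density`): `C₂`: the twin prime constant `∏_{p > 2} (1 - 1 / (p - 1) ^ 2)`.
From Mathlib: `ZMod.stdAddChar`: the additive character `j ↦ exp (2 π i j / q)` of the integers modulo `q`;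
`ZMod.val`: the least residue.

Method: a family of residues modulo `N` with small Fourier coefficients has small exponential sums at all real
frequencies which are not close to integers, and its least residues are not concentrated on short intervals (starting
files `Pool.Agent.N384.MQ`). New here: the class of these distributions is stable under the restriction to residue
classes and the division by small integers, and the equation `a p - b q = c` is reduced to such quotients
(`Pool.Agent.L7h50.AB`). The examples are from the starting files.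
-/

set_option autoImplicit false

namespace Pool.Agent.Results.MP_bf63dc_nt.ResidueFamilyConstants

open Finset Filter Pool.Agent.L7h50.AB

/-- The Fourier coefficients of the residues `y i`, `i ∈ s`, modulo `q` at the nonzero frequencies are at most
`η` times the number of the residues: `|∑ i ∈ s, e(h y_i / q)| ≤ η |s|` for all `h ≠ 0` modulo `q`. -/
def Flat {ι : Type} (q : ℕ) [NeZero q] (η : ℝ) (s : Finset ι) (y : ι → ZMod q) : Prop :=
  ∀ h : ZMod q, h ≠ 0 → ‖∑ i ∈ s, (ZMod.stdAddChar (h * y i) : ℂ)‖ ≤ η * s.card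

open Classical in
/-- **(1)** Let `κ ≠ 0`, `ε > 0`, `A`, `U`, `W` and `e` be fixed. There is a number `V` such that the following holds for
all large integers `N`. Let `y i`, `i ∈ s`, be a finite family of residues modulo `N` whose Fourier coefficients at the
nonzero frequencies are at most `|s| / log ^ V N`, and let `|c₀| ≤ N log ^ e N`. Then all the `i ∈ s`, with at most
`|s| / log ^ U N` exceptions, have the following property: for all integers `a, b, c` as in the problem with `a, b ≤ A`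
and `|c - (c₀ + κ y_i)| ≤ log ^ W N` (with the least residue `0 ≤ y_i < N`), and for all windows `M < q ≤ M'` with
`M' - M ≥ N / log ^ W N`, `M' ≤ N log ^ W N` (and `b M + c ≥ 0` if `c < 0`), the number of the prime solutions of
`a p - b q = c` with `M < q ≤ M'` is between `1 - ε` and `1 + ε` times the prediction of Hardy and Littlewood.

**(2)**, **(3)** Examples. The condition of (1) holds modulo all large primes `p` for:
* the quotients `j / r` of the integers `0 ≤ j < S` by the primes `r ≤ R`, if `log ^ (V + 4) p ≤ R < p` and `R ^ 2 ≤ S`; thus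
  there are such explicit sets with only `log ^ (3 V + 12) p` members;
* the cosets of all subgroups of the multiplicative group of an order of at least `p ^ (3/8) log ^ (3 V + 1) p`;
* the residues `a b + g(a) + k(b)`, `a ∈ A`, `b ∈ B`, for arbitrary sets with `|A| |B| ≥ p log ^ (2 V) p` and arbitrary
  functions `g` and `k`;
* the values `f(n)`, `0 ≤ n < x`, of all integer polynomials of degree `d` whose leading coefficient is not divisible by
  `p`, if `x ^ d ≥ p log ^ C p`, where `C` depends on `d` and `V`. -/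
theorem result :
    (∀ (κ : ℤ), κ ≠ 0 → ∀ (ε : ℝ), 0 < ε → ∀ (A U W e : ℕ), ∃ V N₀ : ℕ, ∀ N : ℕ, N₀ ≤ N → ∀ [NeZero N],
      ∀ (ι : Type) (s : Finset ι) (y : ι → ZMod N), Flat N (1 / Real.log N ^ V) s y →
      ∀ c₀ : ℤ, |(c₀ : ℝ)| ≤ N * Real.log N ^ e →
        ((s.filter fun i => ¬ AllNear ε A W N (c₀ + κ * ((y i).val : ℕ))).card : ℝ) ≤ s.card / Real.log N ^ U) ∧
    (∀ V : ℕ, ∃ P₀ : ℕ, ∀ p : ℕ, P₀ ≤ p → ∀ [Fact p.Prime],
      (∀ R S : ℕ, Real.log p ^ (V + 4) ≤ R → R < p → R ^ 2 ≤ S →
        Flat p (1 / Real.log p ^ V) (((Icc 1 R).filter Nat.Prime) ×ˢ range S)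
          (fun z => ((z.2 : ℕ) : ZMod p) * ((z.1 : ℕ) : ZMod p)⁻¹)) ∧
      (∀ (H : Subgroup (ZMod p)ˣ) (s : Finset (ZMod p)ˣ), (∀ u, u ∈ s ↔ u ∈ H) →
        (p : ℝ) ^ (3 / 8 : ℝ) * Real.log p ^ (3 * V + 1) ≤ s.card → ∀ x : ZMod p, x ≠ 0 →
        Flat p (1 / Real.log p ^ V) s (fun u => x * (u : ZMod p))) ∧
      (∀ (A B : Finset (ZMod p)) (g k : ZMod p → ZMod p), (p : ℝ) * Real.log p ^ (2 * V) ≤ A.card * B.card →
        Flat p (1 / Real.log p ^ V) (A ×ˢ B) (fun z => z.1 * z.2 + g z.1 + k z.2))) ∧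
    (∀ d V : ℕ, 1 ≤ d → ∃ C P₀ : ℕ, ∀ p : ℕ, P₀ ≤ p → ∀ [Fact p.Prime] (f : Polynomial ℤ), f.natDegree = d →
      ¬ (p : ℤ) ∣ f.leadingCoeff → ∀ x : ℕ, (p : ℝ) * Real.log p ^ C ≤ (x : ℝ) ^ d →
      Flat p (1 / Real.log p ^ V) (range x) (fun n => ((f.eval (n : ℤ) : ℤ) : ZMod p))) := by
  refine ⟨fun κ hκ ε hε A U W e => ?_, fun V => ?_, fun d V hd => ?_⟩
  · obtain ⟨V, k₀, h0⟩ := Pool.Agent.N384.MQ.transferX (e + 1) κ hκ U
      (fun k (N : ℕ) => N ≤ 2 ^ k ∧ ((2 : ℕ) : ℝ) ^ k ≤ (k : ℝ) ^ (e + 1) * N)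
      (fun (N : ℕ) y => AllNear ε A W N y) (fun Cl hC => by
        obtain ⟨k₀, h1⟩ := cls_near hC A 1 U W (e + 1) ε hε
        exact ⟨k₀, fun k hk N hN p hp c hc => h1 k hk N hN.1 hN.2 p hp c (by push_cast; rw [one_mul]; exact hc) _ _
          (fun y hy => hy)⟩)
    obtain ⟨q₀, h1⟩ := Pool.Agent.N384.MQ.scaleq e V k₀
    refine ⟨V + 1, q₀, fun N hN _ ι s y hf c hc => ?_⟩
    obtain ⟨hL1, k, hk, g1, g2, g3, g4, g5, g6⟩ := h1 N hN
    have h3 := h0 k hk N ⟨g1, by push_cast; exact g3⟩ N g1 g3 ι s y (Pool.Agent.N384.MQ.Flat.mono g6 hf) c (by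
      have : |(c : ℝ)| ≤ (2 : ℝ) ^ k := hc.trans g2
      exact_mod_cast this)
    refine h3.trans ?_
    rw [mul_one_div]
    apply div_le_div_of_nonneg_left (Nat.cast_nonneg _) (by positivity)
    exact pow_le_pow_left₀ (by linarith) g4 U
  · obtain ⟨P₁, h1⟩ := Pool.Agent.N384.MQ.flat_quot V
    obtain ⟨P₂, h2⟩ := Pool.Agent.N384.MQ.flat_coset V
    obtain ⟨P₃, h3⟩ := Pool.Agent.N384.MQ.flat_prod V
    exact ⟨P₁ + P₂ + P₃, fun p hp _ => ⟨fun R S => h1 p (by omega) R S, fun H s => h2 p (by omega) H s,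
      fun A B g k => h3 p (by omega) A B g k⟩⟩
  · exact Pool.Agent.N384.MQ.flat_poly d V hd

end Pool.Agent.Results.MP_bf63dc_nt.ResidueFamilyConstants
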